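import Pool.Agent.K7.H4.BD.B

/-!
# Big descents of the permutations which avoid `132` and one of `231`, `312`

For both pairs `Π` the number of the permutations in `S_n(Π)` with `k` big descents is
`n.choose (2 k + 1)`, and this sequence is log-concave.

Proof. A permutation which avoids `132` and `231` has its maximum at the first or at the last place. Insert
the numbers `0, 1, ..., n - 1` one after the other; a new big descent arises if and only if the new maximum
is put at the first place and the previous one was not. In a permutation which avoids `132` and `312` the
last element is the minimum or the maximum; a new big descent arises if and only if a new minimum is put at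
the last place (and the other elements are raised by one) and the last element was not the minimum. In both
cases the permutations with `k` big descents correspond to the words of length `n - 1` in two letters with
`k` places where the second letter is followed by the first.
-/

set_option autoImplicit false

namespace Pool.Agent.Results.MP_8b309d_co.TwoPairs

open Pool.Agent.K7.H4.BD

/-- Let `Π = {132, 231}` or `Π = {132, 312}`. For `n ≥ 1` the number `b_{n,k}(Π)` of the permutations of
`n` numbers which avoid `Π` and have `k` big descents is `n.choose (2 k + 1)`, and for all `n` the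
sequence `b_{n,k}(Π)`, `k = 0, 1, ...`, is log-concave. -/
theorem result (Av : List ℕ → Prop)
    (h : Av = (fun l => Av132 l ∧ Av231 l) ∨ Av = (fun l => Av132 l ∧ Av312 l)) :
    (∀ n k, 1 ≤ n → cnt Av n k = n.choose (2 * k + 1)) ∧
      ∀ n k, cnt Av n k * cnt Av n (k + 2) ≤ cnt Av n (k + 1) ^ 2 := by
  have h1 : ∀ n k, 1 ≤ n → cnt Av n k = n.choose (2 * k + 1) := by
    intro n k hn
    obtain ⟨m, rfl⟩ : ∃ m, n = m + 1 := ⟨n - 1, by omega⟩
    rcases h with rfl | rfl
    · exact cnt_A m k
    · exact cnt_B m k
  refine ⟨h1, fun n k => ?_⟩
  rcases Nat.eq_zero_or_pos n with h0 | h0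
  · have h2 : cnt Av n (k + 2) = 0 := by
      unfold cnt
      convert Set.ncard_empty (List ℕ)
      rw [Set.eq_empty_iff_forall_notMem]
      rintro l ⟨h3, -, h4⟩
      rw [h0, List.range_zero, List.perm_nil] at h3
      rw [h3] at h4
      exact absurd h4 (by simp [bdes])
    rw [h2, mul_zero]
    exact Nat.zero_le _
  · rw [h1 n k h0, h1 n (k + 1) h0, h1 n (k + 2) h0]
    have := choose_lc2 n (2 * k + 1)
    rwa [show 2 * k + 1 + 4 = 2 * (k + 2) + 1 by ring, show 2 * k + 1 + 2 = 2 * (k + 1) + 1 by ring]
      at this

end Pool.Agent.Results.MP_8b309d_co.TwoPairs
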